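import Pool.Agent.H84.SL.Targets

/-!
# MP_70ba79_ag: the local different (LOC)
-/

set_option autoImplicit false

namespace Pool.Agent.H92.SL

open MvPolynomial SC Pool.Agent.H27.LV Pool.Agent.H84.SM Pool.Agent.H84.SL

theorem pf_LOC (hTRC : T_TRC) (hAPX : T_APX) : Pool.Agent.H84.SL.T_LOC := by
  classical
  intro k K _ _ _ _ _ _ htr D hD u F hu hF ω hω v0 hv0
  by_cases hω0 : ω = 0
  · exact Or.inl hω0
  right
  by_contra hcon
  have hu0 : u ≠ 0 := by
    rintro rfl
    rw [v0.ord_zero] at hv0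
    exact lt_irrefl _ hv0
  have hfin : {v : DV k K | v.ord u ≠ 0}.Finite := (pfm k K htr u).1
  obtain ⟨s, hs⟩ : ∃ s : Finset (DV k K), ∀ v, v ∈ s ↔ 0 < v.ord u := by
    refine ⟨(hfin.subset (t := {v : DV k K | 0 < v.ord u}) fun v hv => ne_of_gt hv).toFinset,
      fun v => ?_⟩
    rw [Set.Finite.mem_toFinset]
    rfl
  obtain ⟨z, hz0, hz⟩ := hAPX k K htr s (fun v => if v = v0 then -(v.ord ω) - v.ord u
    else max 0 (1 - v.ord ω - v.ord u))
  have hzv0 : v0.ord z = -(v0.ord ω) - v0.ord u := by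
    have h := hz v0 ((hs v0).2 hv0)
    rw [if_pos rfl] at h
    exact h
  have hzv : ∀ v : DV k K, 0 < v.ord u → v ≠ v0 → v.ord z = max 0 (1 - v.ord ω - v.ord u) := by
    intro v hv hne
    have h := hz v ((hs v).2 hv)
    rw [if_neg hne] at h
    exact h
  have hzreg : ∀ v : DV k K, 0 < v.ord u → ge v 0 z := by
    intro v hv
    right
    by_cases hne : v = v0
    · rw [hne, hzv0]
      omega
    · rw [hzv v hv hne]
      exact le_max_left _ _
  obtain ⟨y, hy⟩ : ∃ y, y = u * (ω * z) := ⟨_, rfl⟩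
  have hy0 : y ≠ 0 := by rw [hy]; exact mul_ne_zero hu0 (mul_ne_zero hω0 hz0)
  have hyord : ∀ v : DV k K, v.ord y = v.ord u + (v.ord ω + v.ord z) := fun v => by
    rw [hy, v.ord_mul _ _ hu0 (mul_ne_zero hω0 hz0), v.ord_mul _ _ hω0 hz0]
  have hyv0 : v0.ord y = 0 := by rw [hyord, hzv0]; ring
  have hyv : ∀ v : DV k K, 0 < v.ord u → v ≠ v0 → 1 ≤ v.ord y := by
    intro v hv hne
    rw [hyord, hzv v hv hne]
    have := le_max_right 0 (1 - v.ord ω - v.ord u)
    omega
  obtain ⟨c0, hc0⟩ := (rat k K htr v0).2 y hyv0.ge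
  have hc0ne : c0 ≠ 0 := by
    rintro rfl
    rw [map_zero, sub_zero] at hc0
    have := hc0.resolve_left hy0
    omega
  have h1 := hTRC k K htr D hD u F hu hF y (fun v => if v = v0 then c0 else 0) (fun v hv => by
    by_cases hne : v = v0
    · rw [hne, if_pos rfl]
      exact hc0
    · rw [if_neg hne, map_zero, sub_zero]
      exact Or.inr (hyv v hv hne)) v0 hv0
  have hsum : (∑ᶠ v : DV k K, ((max 0 (v.ord u) : ℤ) : k) * (if v = v0 then c0 else 0)) =
      ((v0.ord u : ℤ) : k) * c0 := by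
    rw [finsum_eq_single _ v0 fun v hv => by rw [if_neg hv, mul_zero], if_pos rfl,
      max_eq_right hv0.le]
  rw [hsum] at h1
  have huF : u ∈ F := by
    rw [hF]
    exact IntermediateField.mem_adjoin_simple_self k u
  have htru : tr F y = u * tr F (ω * z) := by
    have e : y = (⟨u, huF⟩ : F) • (ω * z) := hy
    unfold tr
    rw [e, map_smul, smul_eq_mul, map_mul]
    rfl
  have h2 : ge v0 (v0.ord u) (tr F y) := by
    have h3 := (ge_of_ord (v := v0) (x := u)).mul (hω z hzreg v0 hv0)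
    rw [add_zero] at h3
    rw [htru]
    exact h3
  have h3 := (h2.mono (t := 1) (by omega)).sub h1
  rw [sub_sub_cancel] at h3
  have h4 := const_eq_zero v0 one_pos h3
  rcases mul_eq_zero.1 h4 with h5 | h5
  · have h6 : (v0.ord u : ℤ) = 0 := by exact_mod_cast h5
    omega
  · exact hc0ne h5

end Pool.Agent.H92.SL
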