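import Pool.Agent.H84.SL.Targets
import Pool.Agent.H10.SM.PRM
import Pool.Agent.H58.LV.DFI

/-!
# MP_70ba79_ag: logarithmic Riemann-Hurwitz inequality (LRH)
-/

set_option autoImplicit false

namespace Pool.Agent.H92.SL

open MvPolynomial SC Pool.Agent.H27.LV Pool.Agent.H84.SM Pool.Agent.H84.SL

/-- a derivation into a bigger field which kills a transcendental element is zero -/
theorem der_zero {k K0 K : Type} [Field k] [CharZero k] [Field K0] [Algebra k K0] [Field K]
    [Algebra k K] (htr : Algebra.trdeg k K0 = 1) (ι : K0 →ₐ[k] K) (δ : K0 → K)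
    (hadd : ∀ a b, δ (a + b) = δ a + δ b) (hmul : ∀ a b, δ (a * b) = ι a * δ b + ι b * δ a)
    (hc : ∀ c : k, δ (algebraMap k K0 c) = 0) (t : K0) (ht : Transcendental k t) (h0 : δ t = 0)
    (z : K0) : δ z = 0 := by
  have hal := Pool.Agent.H10.SM.alg_adjoin htr t ht
  obtain ⟨E, hEdef⟩ : ∃ E, E = IntermediateField.adjoin k {t} := ⟨_, rfl⟩
  rw [← hEdef] at hal
  have h1 : δ 1 = 0 := by
    have := hc 1
    rwa [map_one] at this
  have hz0 : δ 0 = 0 := by
    have := hc 0
    rwa [map_zero] at this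
  have hE : ∀ y ∈ E, δ y = 0 := by
    intro y hy
    rw [hEdef] at hy
    induction hy using IntermediateField.adjoin_induction with
    | mem y hy => rw [Set.mem_singleton_iff.1 hy, h0]
    | algebraMap y => exact hc y
    | add y z _ _ h1 h2 => rw [hadd, h1, h2, add_zero]
    | mul y z _ _ h1 h2 => rw [hmul, h1, h2, mul_zero, mul_zero, add_zero]
    | inv y _ h2 =>
      by_cases hy : y = 0
      · rw [hy, inv_zero, hz0]
      · have h3 := hmul y y⁻¹
        rw [mul_inv_cancel₀ hy, h1, h2, mul_zero, add_zero] at h3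
        exact (mul_eq_zero.1 h3.symm).resolve_left ((map_ne_zero ι).2 hy)
  have hpow : ∀ n : ℕ, δ (z ^ n) = n * ι z ^ (n - 1) * δ z := by
    intro n
    induction n with
    | zero => rw [pow_zero, h1, Nat.cast_zero, zero_mul, zero_mul]
    | succ n ih =>
      rw [pow_succ, hmul, ih, Nat.add_sub_cancel, map_pow]
      cases n with
      | zero => simp
      | succ n =>
        rw [Nat.add_sub_cancel]
        push_cast
        ring
  have hpol : ∀ P : Polynomial E,
      δ (Polynomial.aeval z P) = ι (Polynomial.aeval z (Polynomial.derivative P)) * δ z := by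
    intro P
    induction P using Polynomial.induction_on' with
    | add P Q hP hQ => rw [map_add, hadd, hP, hQ, Polynomial.derivative_add, map_add, map_add]; ring
    | monomial n a =>
      rw [Polynomial.aeval_monomial, Polynomial.derivative_monomial, Polynomial.aeval_monomial]
      have h3 : (algebraMap E K0 (a * (n : E))) = (a : K0) * (n : K0) := by
        rw [(algebraMap E K0).map_mul, map_natCast (algebraMap E K0)]
        rfl
      have h4 : (algebraMap E K0 a) = (a : K0) := rfl
      rw [h3, h4, hmul, hE _ a.2, mul_zero, add_zero, hpow, map_mul, map_mul, map_pow, map_natCast]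
      ring
  have hi : IsIntegral E z := (hal.isAlgebraic z).isIntegral
  have hsep : (minpoly E z).Separable := (minpoly.irreducible hi).separable
  have h2 := hsep.aeval_derivative_ne_zero (minpoly.aeval E z)
  have h4 := hpol (minpoly E z)
  rw [minpoly.aeval, hz0] at h4
  exact (mul_eq_zero.1 h4.symm).resolve_left ((map_ne_zero ι).2 h2)

/-- sums over the fibres -/
theorem fib {A B R : Type} [CommSemiring R] (π : A → B) (e : A → ℕ) (N : ℕ)
    (F : B → Finset A) (hF : ∀ w v, v ∈ F w ↔ π v = w) (hsum : ∀ w, ∑ v ∈ F w, e v = N)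
    (f : B → R) (hf : {w | f w ≠ 0}.Finite) :
    {v | (e v : R) * f (π v) ≠ 0}.Finite ∧ ∑ᶠ v, (e v : R) * f (π v) = N * ∑ᶠ w, f w := by
  classical
  obtain ⟨T, hT⟩ : ∃ T : Finset B, ∀ w, w ∈ T ↔ f w ≠ 0 := ⟨hf.toFinset, fun w => by
    rw [Set.Finite.mem_toFinset]
    rfl⟩
  have hsub : Function.support (fun v => (e v : R) * f (π v)) ⊆ ((T.biUnion F : Finset A) : Set A) := by
    intro v hv
    rw [Finset.mem_coe, Finset.mem_biUnion]
    exact ⟨π v, (hT _).2 (right_ne_zero_of_mul hv), (hF _ _).2 rfl⟩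
  refine ⟨(Finset.finite_toSet _).subset hsub, ?_⟩
  rw [finsum_eq_sum_of_support_subset _ hsub, Finset.sum_biUnion, finsum_eq_sum_of_support_subset
    (s := T) _ (fun w hw => by rw [Finset.mem_coe, hT]; exact hw), Finset.mul_sum]
  · refine Finset.sum_congr rfl fun w _ => ?_
    rw [← hsum w, Nat.cast_sum, Finset.sum_mul]
    exact Finset.sum_congr rfl fun v hv => by rw [(hF w v).1 hv]
  · intro w _ w' _ hww
    rw [Function.onFun, Finset.disjoint_left]
    intro v hv hv'
    exact hww (((hF _ _).1 hv).symm.trans ((hF _ _).1 hv'))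

theorem pf_LRH (hRES : T_RES) (hFID : T_FID) : T_LRH := by
  classical
  intro k K0 K _ _ _ _ _ _ _ _ _ ι htr0 htr D0 D hD0 hD
  obtain ⟨N, hN, hfib⟩ := hFID k K0 K ι htr0 htr
  choose π e he hπ using hRES k K0 K ι htr0 htr
  -- the relation of the derivations
  obtain ⟨t, ht⟩ : ∃ t, D0 t ≠ 0 := by
    by_contra h
    push Not at h
    exact hD0 (Derivation.ext h)
  have hDt : D (ι t) ≠ 0 := by
    intro h
    obtain ⟨c, hc⟩ := ker k K htr D hD _ h
    rw [← ι.commutes] at hc
    have h1 := ι.injective hc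
    rw [← h1, D0.map_algebraMap] at ht
    exact ht rfl
  have htt : Transcendental k t := by
    intro halg
    obtain ⟨c, hc⟩ := Pool.Agent.H10.SM.mem_range_of_alg halg
    rw [← hc, D0.map_algebraMap] at ht
    exact ht rfl
  have hιt : ι (D0 t) ≠ 0 := (map_ne_zero ι).2 ht
  obtain ⟨μ, hμ⟩ : ∃ μ, μ = D (ι t) / ι (D0 t) := ⟨_, rfl⟩
  have hμ0 : μ ≠ 0 := by rw [hμ]; exact div_ne_zero hDt hιt
  have hrel : ∀ z, D (ι z) = μ * ι (D0 z) := by
    intro z
    refine sub_eq_zero.1 (der_zero htr0 ι (fun z => D (ι z) - μ * ι (D0 z)) ?_ ?_ ?_ t htt ?_ z)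
    · intro a b
      show D (ι (a + b)) - μ * ι (D0 (a + b)) = _
      rw [map_add, map_add, map_add, map_add]
      ring
    · intro a b
      show D (ι (a * b)) - μ * ι (D0 (a * b)) = _
      rw [map_mul, D.leibniz, D0.leibniz, map_add, smul_eq_mul, smul_eq_mul, smul_eq_mul,
        smul_eq_mul, map_mul, map_mul]
      ring
    · intro c
      show D (ι (algebraMap k K0 c)) - μ * ι (D0 (algebraMap k K0 c)) = 0
      rw [ι.commutes, D.map_algebraMap, D0.map_algebraMap, map_zero, mul_zero, sub_zero]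
    · show D (ι t) - μ * ι (D0 t) = 0
      rw [hμ, div_mul_cancel₀ _ hιt, sub_self]
  -- the fibres
  have hrho : ∀ v, rho ι v (π v) = e v := by
    intro v
    unfold rho
    rw [if_pos ⟨e v, he v, hπ v⟩, hπ v, DV.ord_unif, mul_one, Int.toNat_natCast]
  have hrho0 : ∀ v w, π v ≠ w → rho ι v w = 0 := by
    intro v w hvw
    unfold rho
    rw [if_neg]
    rintro ⟨e', he', h'⟩
    exact hvw (Pool.Agent.H10.SM.place_inj ι (π v) w v (e v) e' (he v) he' (hπ v) h')
  have hrho1 : ∀ v w, rho ι v w ≠ 0 ↔ π v = w := by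
    intro v w
    constructor
    · intro h
      by_contra h'
      exact h (hrho0 v w h')
    · rintro rfl
      rw [hrho]
      exact (he v).ne'
  obtain ⟨F, hF⟩ : ∃ F : DV k K0 → Finset (DV k K), ∀ w v, v ∈ F w ↔ π v = w :=
    ⟨fun w => (hfib w).1.toFinset, fun w v => by
      rw [Set.Finite.mem_toFinset]
      exact hrho1 v w⟩
  have hsum : ∀ w, ∑ v ∈ F w, e v = N := by
    intro w
    rw [← (hfib w).2, finsum_eq_sum_of_support_subset (s := F w) _ (fun v hv => by
      rw [Finset.mem_coe, hF]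
      exact (hrho1 v w).1 hv)]
    refine Finset.sum_congr rfl fun v hv => ?_
    rw [← (hF w v).1 hv, hrho]
  refine ⟨N, hN, ?_, ?_⟩
  · intro x
    unfold deg
    have h1 : ∀ v, poleOrder v (fun i => ι (x i)) = (e v : ℕ) * poleOrder (π v) x := fun v =>
      Pool.Agent.H10.SM.pole_ext ι (π v) v (e v) (hπ v) x _ fun i => rfl
    have h2 := (fib (R := ℕ) π e N F hF hsum (fun w => poleOrder w x) (pfi k K0 htr0 (Fin 3) x)).2
    rw [finsum_congr h1]
    simpa using h2
  · intro S0 S hS
    have hdiff : ∀ v, ((e v : ℤ) - 1) = v.ord μ + (e v : ℤ) * ordD (π v) D0 - ordD v D := by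
      intro v
      have h1 : v.ord (ι (π v).unif) = e v := by rw [hπ v, DV.ord_unif, mul_one]
      have h2 := (dor k K htr D hD v).2.2 (ι (π v).unif) (by rw [h1]; have := he v; omega)
      have h3 : D0 (π v).unif ≠ 0 := (dor k K0 htr0 D0 hD0 (π v)).1
      rw [hrel, v.ord_mul _ _ hμ0 ((map_ne_zero ι).2 h3), hπ v, h1] at h2
      unfold ordD at h2 ⊢
      linarith [h2.2]
    have hfin1 := pfm k K htr μ
    have hdfi : T_DFI := Pool.Agent.H58.LV.dfi dor pfm rat
    have hfin2 := fib (R := ℤ) π e N F hF hsum (fun w => ordD w D0) (hdfi k K0 htr0 D0 hD0)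
    have hfin3 := hdfi k K htr D hD
    have hfe : {v | ((e v : ℤ) - 1) ≠ 0}.Finite := by
      refine ((hfin1.1.union hfin2.1).union hfin3).subset ?_
      intro v hv
      by_contra h
      simp only [Set.mem_union, Set.mem_ofPred_eq, not_or, not_not] at h
      apply hv
      rw [hdiff, h.1.1, h.1.2, h.2]
      ring
    have htot : ∑ᶠ v, ((e v : ℤ) - 1) = N * ∑ᶠ w, ordD w D0 - ∑ᶠ v, ordD v D := by
      rw [finsum_congr hdiff, finsum_sub_distrib, finsum_add_distrib, hfin1.2, hfin2.2, zero_add]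
      · exact hfin1.1
      · exact hfin2.1
      · exact (hfin1.1.union hfin2.1).subset (Function.support_add _ _)
      · exact hfin3
    have hcard : (N : ℤ) * S0.card ≤ S.card + ∑ᶠ v, ((e v : ℤ) - 1) := by
      obtain ⟨V0, hV0⟩ : ∃ V0 : Finset (DV k K), V0 = S0.biUnion F := ⟨_, rfl⟩
      have hdisj : Set.PairwiseDisjoint (S0 : Set (DV k K0)) F := by
        intro w _ w' _ hww
        rw [Function.onFun, Finset.disjoint_left]
        intro v hv hv'
        exact hww (((hF _ _).1 hv).symm.trans ((hF _ _).1 hv'))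
      have h1 : ∑ v ∈ V0, (e v : ℤ) = N * S0.card := by
        rw [hV0, Finset.sum_biUnion hdisj]
        have h2 : ∀ w ∈ S0, ∑ v ∈ F w, (e v : ℤ) = N := fun w _ => by
          rw [← hsum w, Nat.cast_sum]
        rw [Finset.sum_congr rfl h2, Finset.sum_const, nsmul_eq_mul, mul_comm]
      have h2 : V0 ⊆ S := by
        intro v hv
        rw [hV0, Finset.mem_biUnion] at hv
        obtain ⟨w, hw, hv⟩ := hv
        have h3 := (hF _ _).1 hv
        exact hS w hw v (e v) (he v) (by rw [← h3]; exact hπ v)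
      have h3 : ∑ v ∈ V0, ((e v : ℤ) - 1) ≤ ∑ᶠ v, ((e v : ℤ) - 1) := by
        obtain ⟨W, hW⟩ : ∃ W : Finset (DV k K), W = V0 ∪ hfe.toFinset := ⟨_, rfl⟩
        rw [finsum_eq_sum_of_support_subset (s := W) _ (fun v hv => by
          rw [hW, Finset.mem_coe, Finset.mem_union, Set.Finite.mem_toFinset]
          exact Or.inr hv)]
        refine Finset.sum_le_sum_of_subset_of_nonneg (by rw [hW]; exact Finset.subset_union_left)
          fun v _ _ => ?_
        have := he v
        omega
      have h4 : ∑ v ∈ V0, ((e v : ℤ) - 1) = N * S0.card - V0.card := by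
        rw [Finset.sum_sub_distrib, h1, Finset.sum_const, nsmul_eq_mul, mul_one]
      have h5 : (V0.card : ℤ) ≤ S.card := by exact_mod_cast Finset.card_le_card h2
      linarith
    unfold canDeg
    rw [mul_add, mul_neg]
    linarith

end Pool.Agent.H92.SL
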